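import Mathlib
import Pool.Agent.Helper39.Cp.Final
import Pool.Agent.Helper42.Cp.Diamond
import Pool.Agent.Helper42.Cp.NoKurepa

/-!
Both answers to the problem on compact continuous images of `C_p(K)`, `K` a compact linearly
ordered space: diamond plus gives a negative answer (in the strongest form), the failure of the
weak Kurepa hypothesis gives a positive one.
-/

set_option autoImplicit false

open Set Topology Filter
open Pool.Agent.Helper39.Cp Pool.Agent.Helper42.Cp

namespace Pool.Agent.Results.MP_f54944_gt.BothAnswers

/-- Diamond plus implies that for some compact linearly ordered space `K` the space `C_p(K)` maps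
continuously onto the Tychonoff cube of weight `ℵ₁`, so that the answer to the question is
negative. If there are no weak Kurepa families, then the answer to the question is positive. -/
theorem result :
    (DiamondPlus →
      (∃ (K : Type) (_ : LinearOrder K) (_ : TopologicalSpace K) (_ : OrderTopology K)
          (_ : CompactSpace K) (f : {g : K → ℝ // Continuous g} → (W1 → unitInterval)),
          Continuous f ∧ Function.Surjective f) ∧
      ¬ (∀ (K : Type) [LinearOrder K] [TopologicalSpace K] [OrderTopology K] [CompactSpace K]
          (Y : Type) [TopologicalSpace Y] [CompactSpace Y] [T2Space Y]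
          (f : {g : K → ℝ // Continuous g} → Y),
          Continuous f → Function.Surjective f → TopologicalSpace.MetrizableSpace Y)) ∧
    (NoWeakKurepa →
      ∀ (K : Type) [LinearOrder K] [TopologicalSpace K] [OrderTopology K] [CompactSpace K]
        (Y : Type) [TopologicalSpace Y] [CompactSpace Y] [T2Space Y]
        (f : {g : K → ℝ // Continuous g} → Y),
        Continuous f → Function.Surjective f → TopologicalSpace.MetrizableSpace Y) := by
  refine ⟨fun h => ?_, fun h => equivalence.2 (not_codingPrinciple_of_noWeakKurepa h)⟩
  have hC := codingPrinciple_of_diamondPlus h
  exact ⟨nonmetrizable_of_codingPrinciple hC, fun hQ => equivalence.1 hQ hC⟩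

end Pool.Agent.Results.MP_f54944_gt.BothAnswers
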