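import Mathlib
import Pool.Agent.Helper39.Cp.Final

set_option autoImplicit false

open Set Topology Filter
open Pool.Agent.Helper39.Cp

namespace Pool.Agent.Results.MP_f54944_gt.Equivalence

/-- Three equivalent statements: the negation of the posed statement; some compact linearly ordered
`K` has a `C_p(K)` that maps continuously onto the Tychonoff cube of weight `ℵ₁`; the combinatorial
coding principle. -/
theorem result :
    List.TFAE [
      ¬ (∀ (K : Type) [LinearOrder K] [TopologicalSpace K] [OrderTopology K] [CompactSpace K]
          (Y : Type) [TopologicalSpace Y] [CompactSpace Y] [T2Space Y]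
          (f : {g : K → ℝ // Continuous g} → Y),
          Continuous f → Function.Surjective f → TopologicalSpace.MetrizableSpace Y),
      (∃ (K : Type) (_ : LinearOrder K) (_ : TopologicalSpace K) (_ : OrderTopology K)
          (_ : CompactSpace K) (f : {g : K → ℝ // Continuous g} → (W1 → unitInterval)),
          Continuous f ∧ Function.Surjective f),
      CodingPrinciple] := by
  tfae_have 1 → 3 := by
    intro h
    by_contra hC
    exact h (equivalence.2 hC)
  tfae_have 3 → 2 := nonmetrizable_of_codingPrinciple
  tfae_have 2 → 1 := by
    rintro ⟨K, i1, i2, i3, i4, f, hf, hs⟩ hQ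
    exact not_metrizable_pi (@hQ K i1 i2 i3 i4 (W1 → unitInterval) _ compact_pi t2_pi f hf hs)
  tfae_finish

end Pool.Agent.Results.MP_f54944_gt.Equivalence
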