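import Mathlib
import Pool.Agent.Helper39.Cp.Few2

set_option autoImplicit false

open Set Topology Filter Cardinal
open Pool.Agent.Helper39.Cp

namespace Pool.Agent.Results.MP_f54944_gt.FewGaps

/-- If every set `A` of at most `ℵ₁` points of the compact linearly ordered space `K` has at most
`ℵ₁` big gaps, then every compact Hausdorff continuous image of `C_p(K)` is metrizable. -/
theorem result (K : Type) [LinearOrder K] [TopologicalSpace K] [OrderTopology K] [CompactSpace K]
    (hK : ∀ A : Set K, #A ≤ ℵ_ 1 → #{p : K × K | IsBigGap A p.1 p.2} ≤ ℵ_ 1)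
    (Y : Type) [TopologicalSpace Y] [CompactSpace Y] [T2Space Y]
    (f : {g : K → ℝ // Continuous g} → Y) (hf : Continuous f) (hs : Function.Surjective f) :
    TopologicalSpace.MetrizableSpace Y :=
  metrizable_of_few hK f hf hs

/-- Corollary: the answer is yes for every `K` of weight at most `ℵ₁`. -/
theorem weight_le (K : Type) [LinearOrder K] [TopologicalSpace K] [OrderTopology K]
    [CompactSpace K] {B : Set (Set K)} (hB : TopologicalSpace.IsTopologicalBasis B) (hBc : #B ≤ ℵ_ 1)
    (Y : Type) [TopologicalSpace Y] [CompactSpace Y] [T2Space Y]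
    (f : {g : K → ℝ // Continuous g} → Y) (hf : Continuous f) (hs : Function.Surjective f) :
    TopologicalSpace.MetrizableSpace Y := by
  refine result K (fun A _ => ?_) Y f hf hs
  have h : ∀ p : {p : K × K | IsBigGap A p.1 p.2}, ∃ U ∈ B, p.1.1 ∈ U ∧ U ⊆ Iio p.1.2 :=
    fun p => hB.exists_subset_of_mem_open (show p.1.1 ∈ Iio p.1.2 from p.2.lt) isOpen_Iio
  choose U hUB hU1 hU2 using h
  refine (Cardinal.mk_le_of_injective (f := fun p => (⟨U p, hUB p⟩ : B)) ?_).trans hBc
  have aux : ∀ p q : {p : K × K | IsBigGap A p.1 p.2}, U p = U q → ¬ p.1.1 < q.1.1 := by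
    intro p q hpq hlt
    have h1 : ∃ a ∈ A ∩ Iic q.1.1, p.1.1 < a := by
      by_contra hcon
      push Not at hcon
      exact absurd (q.2.lub.2 (fun a ha => hcon a ha)) (not_le.2 hlt)
    obtain ⟨a, ⟨haA, haq⟩, hpa⟩ := h1
    have h2 : p.1.2 ≤ a := (p.2.gap a haA).resolve_left (not_le.2 hpa)
    have h3 : q.1.1 ∈ U p := hpq ▸ hU1 q
    exact absurd (hU2 p h3) (not_lt.2 (h2.trans haq))
  intro p q hpq
  have hUpq : U p = U q := congrArg Subtype.val hpq
  have h1 : p.1.1 = q.1.1 :=
    le_antisymm (not_lt.1 (aux q p hUpq.symm)) (not_lt.1 (aux p q hUpq))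
  have aux2 : ∀ p q : {p : K × K | IsBigGap A p.1 p.2}, p.1.1 = q.1.1 → ¬ p.1.2 < q.1.2 := by
    intro p q hpq hlt
    have h1 : ∃ a ∈ A ∩ Ici p.1.2, a < q.1.2 := by
      by_contra hcon
      push Not at hcon
      exact absurd (p.2.glb.2 (fun a ha => hcon a ha)) (not_le.2 hlt)
    obtain ⟨a, ⟨haA, hpa⟩, haq⟩ := h1
    have h2 : a ≤ q.1.1 := (q.2.gap a haA).resolve_right (not_le.2 haq)
    have h3 : p.1.2 ≤ p.1.1 := (show p.1.2 ≤ a from hpa).trans (hpq ▸ h2)
    exact absurd p.2.lt (not_lt.2 h3)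
  have h2 : p.1.2 = q.1.2 :=
    le_antisymm (not_lt.1 (aux2 q p h1.symm)) (not_lt.1 (aux2 p q h1))
  exact Subtype.ext (Prod.ext h1 h2)

/-- Corollary: the answer is yes if every point of `K` is the supremum of a countable set of smaller
points (or has no smaller points approaching it); in particular if `K` is first countable. -/
theorem left_countable (K : Type) [LinearOrder K] [TopologicalSpace K] [OrderTopology K]
    [CompactSpace K] (hK : ∀ x : K, ∃ C : Set K, C.Countable ∧ C ⊆ Iio x ∧ ∀ z < x, ∃ c ∈ C, z ≤ c)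
    (Y : Type) [TopologicalSpace Y] [CompactSpace Y] [T2Space Y]
    (f : {g : K → ℝ // Continuous g} → Y) (hf : Continuous f) (hs : Function.Surjective f) :
    TopologicalSpace.MetrizableSpace Y := by
  refine result K (fun A _ => ?_) Y f hf hs
  have hempty : {p : K × K | IsBigGap A p.1 p.2} = ∅ := by
    rw [eq_empty_iff_forall_notMem]
    rintro ⟨x, y⟩ h
    have h : IsBigGap A x y := h
    obtain ⟨C, hC, hCx, hcof⟩ := hK x
    have h1 : ∀ c : K, ∃ a, c < x → a ∈ A ∩ Iic x ∧ c < a := by
      intro c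
      by_cases hc : c < x
      · have : ∃ a ∈ A ∩ Iic x, c < a := by
          by_contra hcon
          push Not at hcon
          exact absurd (h.lub.2 (fun a ha => hcon a ha)) (not_le.2 hc)
        obtain ⟨a, ha, hca⟩ := this
        exact ⟨a, fun _ => ⟨ha, hca⟩⟩
      · exact ⟨c, fun h' => absurd h' hc⟩
    choose α hα using h1
    obtain ⟨a, ha, hlt⟩ := h.cof (α '' C) (by
      rintro _ ⟨c, hc, rfl⟩
      exact (hα c (hCx hc)).1) (hC.image α)
    obtain ⟨a', ha', hlt'⟩ := h.cof {a} (by simpa using ha) (countable_singleton a)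
    have hax : a < x := (hlt' a (mem_singleton a)).trans_le ha'.2
    obtain ⟨c, hc, hac⟩ := hcof a hax
    have h2 := hlt (α c) (mem_image_of_mem α hc)
    have h3 := (hα c (hCx hc)).2
    exact absurd (h3.trans h2) (not_lt.2 hac)
  rw [hempty]
  simp

end Pool.Agent.Results.MP_f54944_gt.FewGaps
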